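import Mathlib
import Pool.Agent.MQ94.MTS
import Pool.Agent.MQ94.Spectrum

set_option autoImplicit false

namespace Pool.Agent.Results.MP_aaabe1_al.EmbeddingSpectrum

open Pool.Agent.MQ94

/-- Every partial Mendelsohn triple system of order `n` embeds in a Mendelsohn triple system of order `t` if
and only if `t` is `0` or `1` modulo `3`, `t ≠ 6`, and either `t ≥ 2 n + 1` or `(n, t)` is one of
`(1, 1)`, `(2, 3)`, `(2, 4)`, `(3, 3)`, `(6, 12)`. -/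
theorem result (n t : ℕ) (hn : 1 ≤ n) :
    (∀ T : Set (Fin n × Fin n × Fin n), IsPartialMTS T →
      ∃ B : Set (Fin t × Fin t × Fin t), IsMTS B ∧ Embeds T B) ↔
    (t % 3 = 0 ∨ t % 3 = 1) ∧ t ≠ 6 ∧
      (2 * n + 1 ≤ t ∨ (n = 1 ∧ t = 1) ∨ (n = 2 ∧ (t = 3 ∨ t = 4)) ∨ (n = 3 ∧ t = 3) ∨
        (n = 6 ∧ t = 12)) :=
  allEmbed_iff n t hn

end Pool.Agent.Results.MP_aaabe1_al.EmbeddingSpectrum
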